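import Pool.Agent.V8H11.TE.Loc

/-!
# The supercritical time of a computation
-/

set_option autoImplicit false

namespace Pool.Agent.V8H11.TE

variable {k : ℕ}

/-- the node `v` is needed at time `t`: its value is named before it is computed again -/
def Need (h : ℕ) (f : Var k → Fin k) (i : ℕ → Instr k) (t : ℕ) (v : List Bool) : Prop :=
  ∃ T, t ≤ T ∧ Names (i T) v (value h f v) ∧ ∀ u, t ≤ u → u < T → i u ≠ .query (cell h f v)

/-- the sibling of the suffix of length `j + 1` of `l` -/
def sib (l : List Bool) (j : ℕ) : List Bool :=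
  match l.drop (l.length - 1 - j) with
  | [] => []
  | b :: w => (!b) :: w

theorem drop_suffix {l : List Bool} {j : ℕ} (hj : j < l.length) :
    ∃ b w, l.drop (l.length - 1 - j) = b :: w ∧ w.length = j ∧ (b :: w) <:+ l := by
  have h1 : (l.drop (l.length - 1 - j)).length = j + 1 := by
    rw [List.length_drop]; omega
  rcases h2 : l.drop (l.length - 1 - j) with _ | ⟨b, w⟩
  · rw [h2] at h1; simp at h1
  · refine ⟨b, w, rfl, ?_, ?_⟩
    · rw [h2] at h1; simpa using h1
    · rw [← h2]; exact List.drop_suffix _ _

theorem exists_cons_suffix {v l : List Bool} (hv : v <:+ l) (hne : v ≠ l) :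
    ∃ b : Bool, (b :: v) <:+ l := by
  obtain ⟨pre, rfl⟩ := hv
  rcases List.eq_nil_or_concat pre with rfl | ⟨pre', b, rfl⟩
  · exact absurd (List.nil_append v).symm hne
  · exact ⟨b, pre', by simp⟩

theorem need_step {h : ℕ} {f : Var k → Fin k} {i : ℕ → Instr k} {t : ℕ} {v : List Bool}
    (h1 : Need h f i (t + 1) v) (h0 : ¬ Need h f i t v) : i t = .query (cell h f v) := by
  by_contra hc
  obtain ⟨T, hT, hn, hu⟩ := h1
  refine h0 ⟨T, by omega, hn, fun u hu1 hu2 => ?_⟩
  rcases Nat.eq_or_lt_of_le hu1 with rfl | h3
  · exact hc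
  · exact hu u h3 hu2

theorem names_children {h : ℕ} {f : Var k → Fin k} {v : List Bool} (hv : v.length + 1 < h)
    (b : Bool) : Names (.query (cell h f v)) (b :: v) (value h f (b :: v)) := by
  rw [cell_inner f hv]
  cases b
  · exact Or.inl ⟨rfl, rfl⟩
  · exact Or.inr ⟨rfl, rfl⟩

/-- the supercritical time -/
theorem critical {h : ℕ} (hh : 1 ≤ h) {f : Var k → Fin k} {i : ℕ → Instr k} {T : ℕ}
    (hT : Names (i T) [] (value h f [])) (h0 : ∀ v : List Bool, v.length < h → ¬ Need h f i 0 v) :
    ∃ (τ : ℕ) (l : List Bool), l.length + 1 = h ∧ Need h f i τ l ∧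
      ∀ j < l.length, ∃ d < h, (List.replicate d false ++ sib l j).length < h ∧
        Need h f i τ (List.replicate d false ++ sib l j) := by
  classical
  set P : ℕ → Prop := fun t => ∀ l : List Bool, l.length + 1 = h → ∃ v, v <:+ l ∧ Need h f i t v
    with hP
  have hPT : ∃ t, P t := ⟨T, fun l _ => ⟨[], List.nil_suffix, T, le_refl _, hT, fun u h1 h2 => by
    omega⟩⟩
  have hP0 : ¬ P 0 := by
    intro hp
    obtain ⟨v, hv, hn⟩ := hp (List.replicate (h - 1) false) (by rw [List.length_replicate]; omega)
    have h2 := hv.length_le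
    rw [List.length_replicate] at h2
    exact h0 v (by omega) hn
  obtain ⟨t, ht0, ht1⟩ : ∃ t, ¬ P t ∧ P (t + 1) := by
    have h1 := Nat.find_spec hPT
    have h2 : Nat.find hPT ≠ 0 := fun h => hP0 (h ▸ h1)
    obtain ⟨t, ht⟩ := Nat.exists_eq_succ_of_ne_zero h2
    refine ⟨t, Nat.find_min hPT (by omega), ?_⟩
    rw [ht] at h1
    exact h1
  rw [hP] at ht0
  push Not at ht0
  obtain ⟨l, hl, hno⟩ := ht0
  -- on the open path only the leaf is needed at time `t + 1`
  have key : ∀ v, v <:+ l → Need h f i (t + 1) v → v = l := by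
    intro v hv hn
    by_contra hne
    have h1 := need_step hn (hno v hv)
    obtain ⟨b, hb⟩ := exists_cons_suffix hv hne
    have h2 := hb.length_le
    simp only [List.length_cons] at h2
    refine hno _ hb ⟨t, le_refl _, ?_, fun u h3 h4 => by omega⟩
    rw [h1]
    exact names_children (by omega) b
  refine ⟨t + 1, l, hl, ?_, ?_⟩
  · obtain ⟨v, hv, hn⟩ := ht1 l hl
    rw [← key v hv hn]; exact hn
  · intro j hj
    obtain ⟨b, w, hbw, hw, hsuf⟩ := drop_suffix hj
    have hsib : sib l j = (!b) :: w := by unfold sib; rw [hbw]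
    have hwl : w <:+ l := (List.suffix_cons b w).trans hsuf
    rw [hsib]
    obtain ⟨v, hv, hn⟩ := ht1 (List.replicate (h - 1 - (j + 1)) false ++ ((!b) :: w)) (by
      simp only [List.length_append, List.length_replicate, List.length_cons, hw]; omega)
    have hs : ((!b) :: w) <:+ (List.replicate (h - 1 - (j + 1)) false ++ ((!b) :: w)) :=
      List.suffix_append _ _
    have hcase : ((!b) :: w) <:+ v := by
      rcases List.suffix_or_suffix_of_suffix hv hs with h1 | h1
      · rcases List.suffix_cons_iff.mp h1 with h2 | h2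
        · rw [h2]
        · exfalso
          have h3 := key v (h2.trans hwl) hn
          have h4 := h2.length_le
          rw [h3] at h4
          omega
      · exact h1
    obtain ⟨pre, rfl⟩ := hcase
    obtain ⟨pre2, hpre2⟩ := hv
    rw [← List.append_assoc] at hpre2
    have h5 := List.append_cancel_right hpre2
    have h6 : pre = List.replicate pre.length false := by
      rw [List.eq_replicate_iff]
      refine ⟨rfl, fun c hc => ?_⟩
      have : c ∈ pre2 ++ pre := List.mem_append_right _ hc
      rw [h5] at this
      exact (List.mem_replicate.mp this).2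
    have h7 : pre.length ≤ h - 1 - (j + 1) := by
      have := congrArg List.length h5
      simp only [List.length_append, List.length_replicate] at this
      omega
    refine ⟨pre.length, by omega, ?_, ?_⟩
    · simp only [List.length_append, List.length_replicate, List.length_cons, hw]; omega
    · rw [← h6]
      exact hn

/-- the antichain of needed nodes -/
def nodes (h : ℕ) (l : List Bool) (d : Fin h → Fin h) (i : Fin h) : List Bool :=
  if i.val + 1 = h then l else List.replicate (d i).val false ++ sib l i.val

theorem sib_spec {l : List Bool} {j : ℕ} (hj : j < l.length) :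
    ∃ b w, sib l j = (!b) :: w ∧ w.length = j ∧ (b :: w) <:+ l := by
  obtain ⟨b, w, hbw, hw, hsuf⟩ := drop_suffix hj
  exact ⟨b, w, by unfold sib; rw [hbw], hw, hsuf⟩

theorem suffix_eq_of_length {a b l : List Bool} (ha : a <:+ l) (hb : b <:+ l)
    (hab : a.length = b.length) : a = b := by
  rcases List.suffix_or_suffix_of_suffix ha hb with h | h
  · exact h.eq_of_length hab
  · exact (h.eq_of_length hab.symm).symm

/-- for every `j`, the suffix of length `j + 1` of a later node is the one of `l` -/
theorem nodes_later {h : ℕ} {l : List Bool} (hl : l.length + 1 = h) (d : Fin h → Fin h)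
    {i j : Fin h} (hij : i.val < j.val) {a : List Bool} (ha : a <:+ l)
    (hal : a.length = i.val + 1) : a <:+ nodes h l d j := by
  unfold nodes
  split_ifs with hj
  · exact ha
  · obtain ⟨b, w, hs, hw, hsuf⟩ := sib_spec (l := l) (j := j.val) (by omega)
    rw [hs]
    have h1 : w <:+ l := (List.suffix_cons b w).trans hsuf
    have h2 : a <:+ w := by
      rcases List.suffix_or_suffix_of_suffix ha h1 with h | h
      · exact h
      · have : a.length = w.length := by
          have := h.length_le; omega
        rw [suffix_eq_of_length ha h1 this]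
    exact h2.trans ((List.suffix_cons _ w).trans (List.suffix_append _ _))

theorem nodes_sib {h : ℕ} {l : List Bool} (hl : l.length + 1 = h) (d : Fin h → Fin h)
    {i : Fin h} (hi : i.val + 1 < h) :
    ∃ b w, ((!b) :: w) <:+ nodes h l d i ∧ w.length = i.val ∧ (b :: w) <:+ l := by
  obtain ⟨b, w, hs, hw, hsuf⟩ := sib_spec (l := l) (j := i.val) (by omega)
  refine ⟨b, w, ?_, hw, hsuf⟩
  unfold nodes
  rw [if_neg (by omega), hs]
  exact List.suffix_append _ _

theorem nodes_antichain {h : ℕ} {l : List Bool} (hl : l.length + 1 = h) (d : Fin h → Fin h)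
    {i j : Fin h} (hij : nodes h l d i <:+ nodes h l d j) : i = j := by
  rcases lt_trichotomy i.val j.val with h1 | h1 | h1
  · exfalso
    obtain ⟨b, w, hs, hw, hsuf⟩ := nodes_sib hl d (i := i) (by omega)
    have h2 := nodes_later hl d h1 hsuf (by simp [hw])
    have h3 := suffix_eq_of_length (hs.trans hij) h2 (by simp)
    simp at h3
  · exact Fin.ext h1
  · exfalso
    obtain ⟨b, w, hs, hw, hsuf⟩ := nodes_sib hl d (i := j) (by omega)
    have h2 := nodes_later hl d h1 hsuf (by simp [hw])
    have h3 := suffix_eq_of_length hs (h2.trans hij) (by simp)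
    simp at h3

end Pool.Agent.V8H11.TE
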