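import Mathlib

/-!
# Tree evaluation and deterministic programs
-/

set_option autoImplicit false

namespace Pool.Agent.V8H11.TE

/-- The variables of tree evaluation over `Fin k`: the value of the leaf `p`, and the entry `(a, b)`
of the table of the inner node `p`. Nodes are words; the root is `[]`, the left child of `p` is
`false :: p` and the right child of `p` is `true :: p`. -/
inductive Var (k : ℕ) : Type
  | leaf (p : List Bool)
  | entry (p : List Bool) (a b : Fin k)
deriving DecidableEq

/-- The variables of the complete binary tree with `h` levels: the leaves are the words of length
`h - 1`, the inner nodes are the shorter words. -/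
def Valid (h : ℕ) {k : ℕ} : Var k → Prop
  | .leaf p => p.length + 1 = h
  | .entry p _ _ => p.length + 1 < h

/-- The inputs: a value in `Fin k` for every variable of the tree. -/
abbrev Inp (h k : ℕ) : Type := {x : Var k // Valid h x} → Fin k

open Classical in
/-- Reading a variable (what does not belong to the tree reads as `0`). -/
noncomputable def ext {h k : ℕ} [NeZero k] (I : Inp h k) (x : Var k) : Fin k :=
  if hx : Valid h x then I ⟨x, hx⟩ else 0

/-- The value of a node `p` with `m` levels below it. -/
def val {k : ℕ} (f : Var k → Fin k) : ℕ → List Bool → Fin k
  | 0, p => f (.leaf p)
  | m + 1, p => f (.entry p (val f m (false :: p)) (val f m (true :: p)))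

/-- The value of the node `p` of the tree with `h` levels. -/
def value {k : ℕ} (h : ℕ) (f : Var k → Fin k) (p : List Bool) : Fin k :=
  val f (h - 1 - p.length) p

/-- What a state of a program does: it queries a variable, or it outputs a value. -/
inductive Instr (k : ℕ) : Type
  | query (x : Var k)
  | output (a : Fin k)

/-- A deterministic program with the set `S` of states (a `k`-way branching program, or any
non-uniform machine, whose configurations are the states): after a query the next state depends on
the state and on the value read. -/
structure Prog (k : ℕ) (S : Type) where
  /-- the initial state -/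
  start : S
  /-- the instruction of a state -/
  instr : S → Instr k
  /-- the next state after a query with the given answer -/
  next : S → Fin k → S

/-- One step (a program stays where it outputs). -/
def step {k : ℕ} {S : Type} (B : Prog k S) (f : Var k → Fin k) (s : S) : S :=
  match B.instr s with
  | .query x => B.next s (f x)
  | .output _ => s

/-- The state after `t` steps from the state `s`. -/
def run {k : ℕ} {S : Type} (B : Prog k S) (f : Var k → Fin k) (s : S) (t : ℕ) : S :=
  (step B f)^[t] s

/-- A query of the entry `(a, b)` of the table of `p` names the value `a` for the left child and the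
value `b` for the right child of `p`; an output names a value for the root. -/
def Names {k : ℕ} : Instr k → List Bool → Fin k → Prop
  | .query (.entry p a b), v, c => (v = false :: p ∧ c = a) ∨ (v = true :: p ∧ c = b)
  | .query (.leaf _), _, _ => False
  | .output a, v, c => v = [] ∧ c = a

/-- The variable which holds the value of the node `v`. -/
def cell {k : ℕ} (h : ℕ) (f : Var k → Fin k) (v : List Bool) : Var k :=
  if v.length + 1 < h then .entry v (value h f (false :: v)) (value h f (true :: v)) else .leaf v

/-- The instruction of the program at time `t` of its computation on the input `f`. -/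
def ins {k : ℕ} {S : Type} (B : Prog k S) (f : Var k → Fin k) (t : ℕ) : Instr k :=
  B.instr (run B f B.start t)

/-- The pairs `(v, c)` of a node `v` and a wrong value `c` for it such that `c` is named for `v` at
a time before which the value of `v` has not been read. -/
def blind {k : ℕ} {S : Type} (B : Prog k S) (h : ℕ) (f : Var k → Fin k) :
    Set (List Bool × Fin k) :=
  {y | y.1.length < h ∧ y.2 ≠ value h f y.1 ∧
    ∃ t, Names (ins B f t) y.1 y.2 ∧ ∀ u < t, ins B f u ≠ .query (cell h f y.1)}

/-- At most `q` wrong values of a node `v` are named between a time `r` at which the value of `v` is
read or its right value is named and the next time `T` at which its right value is named, if the value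
of `v` is not read in between. -/
def Tame {k : ℕ} {S : Type} (B : Prog k S) (h q : ℕ) (f : Var k → Fin k) : Prop :=
  ∀ v : List Bool, v.length < h → ∀ r T, r < T →
    (ins B f r = .query (cell h f v) ∨ Names (ins B f r) v (value h f v)) →
    Names (ins B f T) v (value h f v) →
    (∀ u, r < u → u < T → ins B f u ≠ .query (cell h f v) ∧
      ¬ Names (ins B f u) v (value h f v)) →
    {c | ∃ u, r < u ∧ u < T ∧ Names (ins B f u) v c}.ncard ≤ q

theorem finite_valid (h k : ℕ) : Finite {x : Var k // Valid h x} := by
  have h1 : {x : Var k | Valid h x} ⊆
      (Var.leaf '' {p : List Bool | p.length < h}) ∪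
        ((fun y : List Bool × Fin k × Fin k => Var.entry y.1 y.2.1 y.2.2) ''
          ({p : List Bool | p.length < h} ×ˢ (Set.univ ×ˢ Set.univ))) := by
    rintro (p | ⟨p, a, b⟩) hx
    · left
      refine ⟨p, ?_, rfl⟩
      have : p.length + 1 = h := hx
      show p.length < h
      omega
    · right
      refine ⟨(p, a, b), ⟨?_, Set.mem_univ _, Set.mem_univ _⟩, rfl⟩
      have : p.length + 1 < h := hx
      show p.length < h
      omega
  have h2 : {p : List Bool | p.length < h}.Finite := List.finite_length_lt Bool h
  exact (((h2.image _).union ((h2.prod (Set.finite_univ.prod Set.finite_univ)).image _)).subset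
    h1).to_subtype

noncomputable instance instFintypeValid (h k : ℕ) : Fintype {x : Var k // Valid h x} :=
  haveI := finite_valid h k
  Fintype.ofFinite _

open Classical in
/-- The inputs on which the program outputs the value of the root, names at most `p` wrong values of
nodes not read before, and is tame with `q`. -/
noncomputable def good {k : ℕ} [NeZero k] {S : Type} (B : Prog k S) (h p q : ℕ) :
    Finset (Inp h k) :=
  Finset.univ.filter fun I =>
    (∃ t, ins B (ext I) t = .output (value h (ext I) [])) ∧
      (blind B h (ext I)).ncard ≤ p ∧ Tame B h q (ext I)

end Pool.Agent.V8H11.TE
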