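import Pool.Agent.V8H11.TE.Block

/-!
# Few inputs share a state with the same needed nodes
-/

set_option autoImplicit false

namespace Pool.Agent.V8H11.TE

variable {k : ℕ} {S : Type}

/-- from the state `s` the right value of `v` is named for the first time at time `T`, before the
value is read, after `m` other values -/
def At (B : Prog k S) (h : ℕ) (s : S) (f : Var k → Fin k) (v : List Bool) (m T : ℕ) : Prop :=
  Names (B.instr (run B f s T)) v (value h f v) ∧
    (∀ u < T, ¬ Names (B.instr (run B f s u)) v (value h f v) ∧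
      B.instr (run B f s u) ≠ .query (cell h f v)) ∧
    {c | ∃ u < T, Names (B.instr (run B f s u)) v c}.ncard = m

/-- the class of inputs -/
def Cls (B : Prog k S) (h : ℕ) (s : S) (V : Fin h → List Bool) (m : Fin h → ℕ)
    (f : Var k → Fin k) : Prop :=
  (∀ i, (V i).length < h) ∧ ∀ i, ∃ T, At B h s f (V i) (m i) T

open Classical in
/-- overwriting the values of the nodes of `V` -/
noncomputable def ovr {n : ℕ} (h : ℕ) (f : Var k → Fin k) (V : Fin n → List Bool)
    (c : Fin n → Fin k) (x : Var k) : Fin k :=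
  if hx : ∃ i, x = cell h f (V i) then c hx.choose else f x

variable {n h : ℕ} {V : Fin n → List Bool}

theorem over_thr (hV : ∀ i j, V i <:+ V j → i = j) (f : Var k → Fin k) (c : Fin n → Fin k)
    (i : Fin n) : ovr h f V c (cell h f (V i)) = c i := by
  have hx : ∃ j, cell h f (V i) = cell h f (V j) := ⟨i, rfl⟩
  unfold ovr
  rw [dif_pos hx]
  have h1 := congrArg node hx.choose_spec
  rw [node_cell, node_cell] at h1
  have h2 := hV i hx.choose (by rw [← h1])
  rw [← h2]

theorem over_other (f : Var k → Fin k) (c : Fin n → Fin k) {x : Var k}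
    (hx : ∀ i, x ≠ cell h f (V i)) : ovr h f V c x = f x := by
  unfold ovr
  rw [dif_neg]
  rintro ⟨i, hi⟩
  exact hx i hi

theorem thr_over (hV : ∀ i j, V i <:+ V j → i = j) (f : Var k → Fin k) (c : Fin n → Fin k)
    (i : Fin n) : cell h (ovr h f V c) (V i) = cell h f (V i) := by
  refine cell_congr h (V i) fun x hx hne => over_other f c fun j hj => ?_
  have h1 := congrArg node hj
  rw [node_cell] at h1
  rw [h1] at hx hne
  exact hne (by rw [hV i j hx])

theorem aux {B : Prog k S} {s : S} {m : Fin n → ℕ} {f g : Var k → Fin k}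
    (hX : ∀ i, cell h g (V i) = cell h f (V i))
    (hag : ∀ x, (∀ i, x ≠ cell h f (V i)) → f x = g x) {Tf Tg : Fin n → ℕ}
    (hf : ∀ i, At B h s f (V i) (m i) (Tf i)) (hg : ∀ i, At B h s g (V i) (m i) (Tg i))
    {i : Fin n} (hi : f (cell h f (V i)) ≠ g (cell h f (V i)))
    (hmin : ∀ j, f (cell h f (V j)) ≠ g (cell h f (V j)) → Tf i ≤ Tf j ∧ Tf i ≤ Tg j) : False := by
  have hrun : ∀ t ≤ Tf i, run B f s t = run B g s t := by
    refine run_congr fun t ht x hx => ?_
    by_cases hc : ∃ j, x = cell h f (V j)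
    · obtain ⟨j, rfl⟩ := hc
      by_contra hne
      exact ((hf j).2.1 t (lt_of_lt_of_le ht (hmin j hne).1)).2 hx
    · push Not at hc
      exact hag x hc
  have h1 := (hf i).1
  have h2 := (hg i).1
  rcases Nat.eq_or_lt_of_le (hmin i hi).2 with h3 | h3
  · rw [← h3, ← hrun _ (le_refl _)] at h2
    have h4 := names_unique h1 h2
    rw [value_eq, value_eq, hX] at h4
    exact hi h4
  · have h4 : insert (value h f (V i)) {c | ∃ u < Tf i, Names (B.instr (run B f s u)) (V i) c} ⊆
        {c | ∃ u < Tg i, Names (B.instr (run B g s u)) (V i) c} := by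
      rintro c (rfl | ⟨u, hu, hc⟩)
      · refine ⟨Tf i, h3, ?_⟩
        rw [← hrun _ (le_refl _)]
        exact h1
      · refine ⟨u, hu.trans h3, ?_⟩
        rw [← hrun u hu.le]
        exact hc
    have h5 : value h f (V i) ∉ {c | ∃ u < Tf i, Names (B.instr (run B f s u)) (V i) c} := by
      rintro ⟨u, hu, hc⟩
      exact ((hf i).2.1 u hu).1 hc
    have h6 := Set.ncard_le_ncard h4 (Set.toFinite _)
    rw [Set.ncard_insert_of_notMem h5 (Set.toFinite _), (hf i).2.2, (hg i).2.2] at h6
    omega

theorem over_inj (hV : ∀ i j, V i <:+ V j → i = j) {B : Prog k S} {s : S} {m : Fin n → ℕ}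
    {f g : Var k → Fin k} (hf : ∀ i, ∃ T, At B h s f (V i) (m i) T)
    (hg : ∀ i, ∃ T, At B h s g (V i) (m i) T) {c d : Fin n → Fin k}
    (hfg : ovr h f V c = ovr h g V d) : f = g ∧ c = d := by
  have hX : ∀ i, cell h g (V i) = cell h f (V i) := fun i => by
    rw [← thr_over hV g d i, ← hfg, thr_over hV f c i]
  have hag : ∀ x, (∀ i, x ≠ cell h f (V i)) → f x = g x := fun x hx => by
    rw [← over_other f c hx, hfg, over_other g d]
    intro i
    rw [hX]
    exact hx i
  choose Tf hTf using hf
  choose Tg hTg using hg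
  have main : ∀ i, f (cell h f (V i)) = g (cell h f (V i)) := by
    by_contra hcon
    push Not at hcon
    classical
    have hex : ∃ t, ∃ i, f (cell h f (V i)) ≠ g (cell h f (V i)) ∧ (t = Tf i ∨ t = Tg i) := by
      obtain ⟨i, hi⟩ := hcon
      exact ⟨Tf i, i, hi, Or.inl rfl⟩
    obtain ⟨i, hi, ht⟩ := Nat.find_spec hex
    have hmin : ∀ j, f (cell h f (V j)) ≠ g (cell h f (V j)) →
        Nat.find hex ≤ Tf j ∧ Nat.find hex ≤ Tg j := fun j hj =>
      ⟨Nat.find_min' hex ⟨j, hj, Or.inl rfl⟩, Nat.find_min' hex ⟨j, hj, Or.inr rfl⟩⟩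
    rcases ht with ht | ht
    · rw [ht] at hmin
      exact aux hX hag hTf hTg hi hmin
    · rw [ht] at hmin
      refine aux (f := g) (g := f) (fun j => (hX j).symm) (fun x hx => (hag x fun j => ?_).symm)
        hTg hTf (i := i) ?_ ?_
      · rw [← hX]; exact hx j
      · rw [hX]; exact fun he => hi he.symm
      · intro j hj
        rw [hX] at hj
        exact ⟨(hmin j fun he => hj he.symm).2, (hmin j fun he => hj he.symm).1⟩
  have hfg' : f = g := by
    funext x
    by_cases hc : ∃ j, x = cell h f (V j)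
    · obtain ⟨j, rfl⟩ := hc
      exact main j
    · push Not at hc
      exact hag x hc
  refine ⟨hfg', ?_⟩
  subst hfg'
  funext i
  rw [← over_thr (h := h) hV f c i, hfg, over_thr hV f d i]

open Classical in
theorem cls_card [NeZero k] {V : Fin h → List Bool} (hV : ∀ i j, V i <:+ V j → i = j)
    (B : Prog k S) (s : S) (m : Fin h → ℕ) :
    (Finset.univ.filter fun I : Inp h k => Cls B h s V m (ext I)).card * k ^ h ≤
      Fintype.card (Inp h k) := by
  have hover : ∀ (I : Inp h k) (c : Fin h → Fin k), (∀ i, (V i).length < h) →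
      ext (fun x : {x : Var k // Valid h x} => ovr h (ext I) V c x.1) = ovr h (ext I) V c := by
    intro I c hlen
    funext x
    by_cases hx : Valid h x
    · exact ext_valid _ ⟨x, hx⟩
    · rw [ext_invalid _ hx, over_other, ext_invalid _ hx]
      rintro i rfl
      exact hx (valid_cell _ (hlen i))
  have h1 : Function.Injective (fun y : {I : Inp h k // Cls B h s V m (ext I)} × (Fin h → Fin k) =>
      (fun x : {x : Var k // Valid h x} => ovr h (ext y.1.1) V y.2 x.1 : Inp h k)) := by
    rintro ⟨⟨I, hI⟩, c⟩ ⟨⟨J, hJ⟩, d⟩ hIJ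
    have h2 := congrArg ext hIJ
    simp only at h2
    rw [hover I c hI.1, hover J d hJ.1] at h2
    obtain ⟨h3, h4⟩ := over_inj hV hI.2 hJ.2 h2
    have h5 := ext_inj h3
    subst h5
    subst h4
    rfl
  have h2 := Fintype.card_le_of_injective _ h1
  rw [Fintype.card_prod, Fintype.card_fun, Fintype.card_fin, Fintype.card_fin,
    Fintype.card_subtype] at h2
  exact h2

end Pool.Agent.V8H11.TE
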