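import Pool.Agent.V8H11.TE.Defs

/-!
# Locality
-/

set_option autoImplicit false

namespace Pool.Agent.V8H11.TE

variable {k : ℕ} {S : Type}

/-- the node of a variable -/
def node : Var k → List Bool
  | .leaf p => p
  | .entry p _ _ => p

theorem cell_leaf {h : ℕ} (f : Var k → Fin k) {p : List Bool} (hp : ¬ p.length + 1 < h) :
    cell h f p = .leaf p := by
  unfold cell
  rw [if_neg hp]

theorem cell_inner {h : ℕ} (f : Var k → Fin k) {p : List Bool} (hp : p.length + 1 < h) :
    cell h f p = .entry p (value h f (false :: p)) (value h f (true :: p)) := by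
  unfold cell
  rw [if_pos hp]

theorem value_eq (h : ℕ) (f : Var k → Fin k) (p : List Bool) : value h f p = f (cell h f p) := by
  by_cases hp : p.length + 1 < h
  · rw [cell_inner f hp]
    unfold value
    obtain ⟨m, hm⟩ : ∃ m, h - 1 - p.length = m + 1 := ⟨h - 1 - p.length - 1, by omega⟩
    rw [hm, show h - 1 - (false :: p).length = m by simp; omega,
      show h - 1 - (true :: p).length = m by simp; omega]
    rfl
  · rw [cell_leaf f hp]
    unfold value
    rw [show h - 1 - p.length = 0 by omega]
    rfl

theorem node_cell (h : ℕ) (f : Var k → Fin k) (p : List Bool) : node (cell h f p) = p := by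
  unfold cell
  split_ifs <;> rfl

theorem valid_cell {h : ℕ} (f : Var k → Fin k) {p : List Bool} (hp : p.length < h) :
    Valid h (cell h f p) := by
  by_cases h1 : p.length + 1 < h
  · rw [cell_inner f h1]; exact h1
  · rw [cell_leaf f h1]; show p.length + 1 = h; omega

theorem val_congr {f g : Var k → Fin k} (m : ℕ) (p : List Bool)
    (hfg : ∀ x, p <:+ node x → f x = g x) : val f m p = val g m p := by
  induction m generalizing p with
  | zero => exact hfg _ (List.suffix_refl _)
  | succ m ih =>
    have h1 : ∀ b : Bool, val f m (b :: p) = val g m (b :: p) := fun b =>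
      ih (b :: p) fun x hx => hfg x ((List.suffix_cons b p).trans hx)
    show f _ = g _
    rw [h1 false, h1 true]
    exact hfg _ (List.suffix_refl _)

theorem value_congr {f g : Var k → Fin k} (h : ℕ) (p : List Bool)
    (hfg : ∀ x, p <:+ node x → f x = g x) : value h f p = value h g p :=
  val_congr _ _ hfg

theorem cell_congr {f g : Var k → Fin k} (h : ℕ) (p : List Bool)
    (hfg : ∀ x, p <:+ node x → node x ≠ p → f x = g x) : cell h f p = cell h g p := by
  unfold cell
  split_ifs
  · have h1 : ∀ b : Bool, value h f (b :: p) = value h g (b :: p) := by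
      intro b
      refine value_congr h (b :: p) fun x hx => hfg x ((List.suffix_cons b p).trans hx) ?_
      intro he
      have := hx.length_le
      rw [he] at this
      simp at this
    rw [h1 false, h1 true]
  · rfl

theorem ext_valid {h : ℕ} [NeZero k] (I : Inp h k) (x : {x : Var k // Valid h x}) :
    ext I x.1 = I x := by
  unfold ext
  rw [dif_pos x.2]

theorem ext_invalid {h : ℕ} [NeZero k] (I : Inp h k) {x : Var k} (hx : ¬ Valid h x) :
    ext I x = 0 := by
  unfold ext
  rw [dif_neg hx]

theorem ext_inj {h : ℕ} [NeZero k] {I J : Inp h k} (hIJ : ext I = ext J) : I = J := by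
  funext x
  rw [← ext_valid I x, ← ext_valid J x, hIJ]

theorem names_unique {i : Instr k} {v : List Bool} {a b : Fin k} (ha : Names i v a)
    (hb : Names i v b) : a = b := by
  rcases i with (p | ⟨p, c, d⟩) | c
  · exact ha.elim
  · rcases ha with ⟨h1, rfl⟩ | ⟨h1, rfl⟩ <;> rcases hb with ⟨h2, rfl⟩ | ⟨h2, rfl⟩
    · rfl
    · rw [h1] at h2; simp at h2
    · rw [h1] at h2; simp at h2
    · rfl
  · exact ha.2.trans hb.2.symm

theorem run_zero (B : Prog k S) (f : Var k → Fin k) (s : S) : run B f s 0 = s := rfl

theorem run_succ (B : Prog k S) (f : Var k → Fin k) (s : S) (t : ℕ) :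
    run B f s (t + 1) = step B f (run B f s t) := by
  unfold run
  rw [Function.iterate_succ_apply']

theorem run_add (B : Prog k S) (f : Var k → Fin k) (s : S) (t u : ℕ) :
    run B f s (t + u) = run B f (run B f s t) u := by
  unfold run
  rw [add_comm, Function.iterate_add_apply]

/-- computations on two inputs coincide as long as the answers do -/
theorem run_congr {B : Prog k S} {f g : Var k → Fin k} {s : S} {T : ℕ}
    (hfg : ∀ t < T, ∀ x, B.instr (run B f s t) = .query x → f x = g x) :
    ∀ t ≤ T, run B f s t = run B g s t := by
  intro t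
  induction t with
  | zero => intro _; rfl
  | succ t ih =>
    intro ht
    have h1 := ih (by omega)
    rw [run_succ, run_succ, ← h1]
    unfold step
    rcases hi : B.instr (run B f s t) with x | a
    · simp only
      rw [hfg t (by omega) x hi]
    · rfl

end Pool.Agent.V8H11.TE
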