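import Pool.Agent.V8H11.TE.Block

/-!
# Lucky first namings are rare
-/

set_option autoImplicit false

namespace Pool.Agent.V8H11.TE

variable {k : ℕ} {S : Type}

/-- the right value of `v` is named at time `t`, and the value of `v` was not read before -/
def LuckyAt (B : Prog k S) (h : ℕ) (f : Var k → Fin k) (t : ℕ) (v : List Bool) : Prop :=
  Names (ins B f t) v (value h f v) ∧ ∀ u < t, ins B f u ≠ .query (cell h f v)

/-- some right value is named without having been read -/
def Lucky (B : Prog k S) (h : ℕ) (f : Var k → Fin k) : Prop :=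
  ∃ t v, v.length < h ∧ LuckyAt B h f t v

/-- the blind wrong values named before time `t` -/
def blindBefore (B : Prog k S) (h : ℕ) (f : Var k → Fin k) (t : ℕ) : Set (List Bool × Fin k) :=
  {z | z.1.length < h ∧ z.2 ≠ value h f z.1 ∧
    ∃ u < t, Names (ins B f u) z.1 z.2 ∧ ∀ w < u, ins B f w ≠ .query (cell h f z.1)}

/-- the first blind wrong values named -/
def early (B : Prog k S) (h p : ℕ) (f : Var k → Fin k) : Set (List Bool × Fin k) :=
  {y | y.1.length < h ∧ y.2 ≠ value h f y.1 ∧
    ∃ t, (Names (ins B f t) y.1 y.2 ∧ ∀ w < t, ins B f w ≠ .query (cell h f y.1)) ∧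
      (blindBefore B h f t).ncard ≤ p}

theorem finite_short (h k : ℕ) : {z : List Bool × Fin k | z.1.length < h}.Finite := by
  have h2 : {p : List Bool | p.length < h}.Finite := List.finite_length_lt Bool h
  refine (h2.prod (Set.finite_univ (α := Fin k))).subset ?_
  rintro ⟨p, a⟩ hp
  exact ⟨hp, Set.mem_univ _⟩

theorem names_card (i : Instr k) : {z : List Bool × Fin k | Names i z.1 z.2}.Finite ∧
    {z : List Bool × Fin k | Names i z.1 z.2}.ncard ≤ 2 := by
  have pair : ∀ a b : List Bool × Fin k, {z : List Bool × Fin k | Names i z.1 z.2} ⊆ {a, b} →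
      {z : List Bool × Fin k | Names i z.1 z.2}.Finite ∧
        {z : List Bool × Fin k | Names i z.1 z.2}.ncard ≤ 2 := by
    intro a b hab
    have h1 : ({a, b} : Set (List Bool × Fin k)).Finite := Set.toFinite _
    refine ⟨h1.subset hab, (Set.ncard_le_ncard hab h1).trans ?_⟩
    exact (Set.ncard_insert_le _ _).trans (by rw [Set.ncard_singleton])
  rcases i with (p | ⟨p, a, b⟩) | a
  · have h1 : {z : List Bool × Fin k | Names (.query (.leaf p)) z.1 z.2} = ∅ := by
      ext z
      exact ⟨fun hz => hz.elim, fun hz => hz.elim⟩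
    rw [h1]
    exact ⟨Set.finite_empty, by rw [Set.ncard_empty]; omega⟩
  · refine pair (false :: p, a) (true :: p, b) ?_
    rintro ⟨v, c⟩ (⟨h1, h2⟩ | ⟨h1, h2⟩)
    · left; simp only at h1 h2; rw [h1, h2]
    · right; simp only at h1 h2; rw [h1, h2]; rfl
  · refine pair ([], a) ([], a) ?_
    rintro ⟨v, c⟩ ⟨h1, h2⟩
    left; simp only at h1 h2; rw [h1, h2]

theorem early_card (B : Prog k S) (h p : ℕ) (f : Var k → Fin k) :
    (early B h p f).Finite ∧ (early B h p f).ncard ≤ p + 2 := by
  have hfin : (early B h p f).Finite := (finite_short h k).subset fun y hy => hy.1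
  refine ⟨hfin, ?_⟩
  rcases (early B h p f).eq_empty_or_nonempty with he | hne
  · rw [he, Set.ncard_empty]; omega
  have hex : ∀ y : List Bool × Fin k, ∃ t, y ∈ early B h p f →
      (Names (ins B f t) y.1 y.2 ∧ ∀ w < t, ins B f w ≠ .query (cell h f y.1)) ∧
        (blindBefore B h f t).ncard ≤ p := by
    intro y
    by_cases hy : y ∈ early B h p f
    · obtain ⟨t, ht⟩ := hy.2.2
      exact ⟨t, fun _ => ht⟩
    · exact ⟨0, fun h => absurd h hy⟩
  choose T hT using hex
  obtain ⟨y0, hy0, hmax⟩ := Set.exists_max_image (early B h p f) T hfin hne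
  have hsub : early B h p f ⊆ blindBefore B h f (T y0) ∪
      {z : List Bool × Fin k | Names (ins B f (T y0)) z.1 z.2} := by
    intro y hy
    rcases Nat.eq_or_lt_of_le (hmax y hy) with h1 | h1
    · right
      have := (hT y hy).1.1
      rw [h1] at this
      exact this
    · left
      exact ⟨hy.1, hy.2.1, T y, h1, (hT y hy).1⟩
  have h1 := names_card (ins B f (T y0))
  have h2 : (blindBefore B h f (T y0)).Finite := (finite_short h k).subset fun y hy => hy.1
  have h3 := Set.ncard_le_ncard hsub (h2.union h1.1)
  have h4 := Set.ncard_union_le (blindBefore B h f (T y0))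
    {z : List Bool × Fin k | Names (ins B f (T y0)) z.1 z.2}
  have h5 := (hT y0 hy0).2
  omega

/-- before the first lucky naming no node above is named rightly -/
theorem no_right {B : Prog k S} {h : ℕ} {f : Var k → Fin k} {t : ℕ} {v : List Bool}
    (hv : v.length < h) (hL : LuckyAt B h f t v)
    (hmin : ∀ t1 < t, ∀ u : List Bool, u.length < h → ¬ LuckyAt B h f t1 u) :
    ∀ n, ∀ u : List Bool, u <:+ v → v.length - u.length = n → ∀ t1 < t,
      ¬ Names (ins B f t1) u (value h f u) := by
  intro n
  induction n with
  | zero =>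
    intro u hu hn t1 ht1 hnm
    have h1 := hu.length_le
    have h2 : u = v := hu.eq_of_length (by omega)
    subst h2
    have h3 := hmin t1 ht1 u hv
    unfold LuckyAt at h3
    push Not at h3
    obtain ⟨t2, ht2, h4⟩ := h3 hnm
    exact hL.2 t2 (by omega) h4
  | succ n ih =>
    intro u hu hn t1 ht1 hnm
    have hne : u ≠ v := by
      rintro rfl
      omega
    have h1 := hu.length_le
    have h3 := hmin t1 ht1 u (by omega)
    unfold LuckyAt at h3
    push Not at h3
    obtain ⟨t2, ht2, h4⟩ := h3 hnm
    obtain ⟨b, hb⟩ := exists_cons_suffix hu hne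
    have h5 := hb.length_le
    simp only [List.length_cons] at h5
    refine ih (b :: u) hb (by simp only [List.length_cons]; omega) t2 (by omega) ?_
    rw [h4]
    exact names_children (by omega) b

/-- changing the value of the node of the first lucky naming -/
theorem change [DecidableEq (Var k)] {B : Prog k S} {h p : ℕ} {f g : Var k → Fin k} {t : ℕ}
    {v : List Bool} {a : Fin k} (hv : v.length < h) (hL : LuckyAt B h f t v)
    (hmin : ∀ t1 < t, ∀ u : List Bool, u.length < h → ¬ LuckyAt B h f t1 u)
    (ha : a ≠ value h f v) (hg : g = Function.update f (cell h f v) a)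
    (hp : (blind B h f).ncard ≤ p) :
    cell h g v = cell h f v ∧ (v, value h f v) ∈ early B h p g := by
  have hother : ∀ x, x ≠ cell h f v → f x = g x := fun x hx => by
    rw [hg, Function.update_of_ne hx]
  have hcell : cell h g v = cell h f v := (cell_congr h v fun x _ hne => hother x fun he => hne (by
    rw [he, node_cell])).symm
  have hval : value h g v = a := by
    rw [value_eq, hcell, hg, Function.update_self]
  have hrun : ∀ t1 ≤ t, ins B f t1 = ins B g t1 := fun t1 ht1 => by
    unfold ins
    rw [run_congr (T := t) (fun t2 ht2 x hx => hother x fun he => hL.2 t2 ht2 (by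
      unfold ins; rw [hx, he])) t1 ht1]
  refine ⟨hcell, hv, ?_, t, ⟨?_, ?_⟩, ?_⟩
  · show value h f v ≠ value h g v
    rw [hval]; exact ha.symm
  · show Names (ins B g t) v (value h f v)
    rw [← hrun t le_rfl]; exact hL.1
  · intro w hw
    show ins B g w ≠ .query (cell h g v)
    rw [← hrun w hw.le, hcell]
    exact hL.2 w hw
  · have hsub : blindBefore B h g t ⊆ blind B h f := by
      rintro ⟨u, c⟩ ⟨hu, hc, t1, ht1, hn, hnr⟩
      simp only at hu hc hn hnr
      rw [← hrun t1 ht1.le] at hn
      refine ⟨hu, ?_, t1, hn, ?_⟩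
      · show c ≠ value h f u
        intro hcf
        by_cases hs : u <:+ v
        · rw [hcf] at hn
          exact no_right hv hL hmin _ u hs rfl t1 ht1 hn
        · apply hc
          rw [hcf]
          exact value_congr h u fun x hx => hother x fun he => hs (by
            rw [he, node_cell] at hx; exact hx)
      · intro w hw
        show ins B f w ≠ .query (cell h f u)
        by_cases hs : u <:+ v ∧ u ≠ v
        · intro hq
          obtain ⟨b, hb⟩ := exists_cons_suffix hs.1 hs.2
          have h5 := hb.length_le
          simp only [List.length_cons] at h5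
          refine no_right hv hL hmin _ (b :: u) hb rfl w (by omega) ?_
          rw [hq]
          exact names_children (by omega) b
        · have h6 : cell h f u = cell h g u := by
            refine cell_congr h u fun x hx hne => hother x fun he => hs ?_
            rw [he, node_cell] at hx hne
            exact ⟨hx, fun h => hne h.symm⟩
          rw [h6, hrun w (by omega)]
          exact hnr w hw
    have hfin : (blind B h f).Finite := (finite_short h k).subset fun y hy => hy.1
    exact (Set.ncard_le_ncard hsub hfin).trans hp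

theorem exists_first {B : Prog k S} {h : ℕ} {f : Var k → Fin k} (hL : Lucky B h f) :
    ∃ v : List Bool, v.length < h ∧ ∃ t, LuckyAt B h f t v ∧
      ∀ t1 < t, ∀ u : List Bool, u.length < h → ¬ LuckyAt B h f t1 u := by
  classical
  have hex : ∃ t, ∃ v : List Bool, v.length < h ∧ LuckyAt B h f t v := hL
  obtain ⟨v, hv, hat⟩ := Nat.find_spec hex
  exact ⟨v, hv, _, hat, fun t1 ht1 u hu hc => Nat.find_min hex ht1 ⟨u, hu, hc⟩⟩

open Classical in
theorem lucky_card [NeZero k] (B : Prog k S) (h p q : ℕ) :
    ((good B h p q).filter fun I => Lucky B h (ext I)).card * (k - 1) ≤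
      (p + 2) * Fintype.card (Inp h k) := by
  set L := (good B h p q).filter fun I => Lucky B h (ext I) with hLdef
  have hex : ∀ I : Inp h k, ∃ v : List Bool, I ∈ L → v.length < h ∧ ∃ t, LuckyAt B h (ext I) t v ∧
      ∀ t1 < t, ∀ u : List Bool, u.length < h → ¬ LuckyAt B h (ext I) t1 u := by
    intro I
    by_cases hI : I ∈ L
    · obtain ⟨v, hv⟩ := exists_first (Finset.mem_filter.mp hI).2
      exact ⟨v, fun _ => hv⟩
    · exact ⟨[], fun h => absurd h hI⟩
  choose v hv using hex
  set P : Finset (Inp h k × Fin k) :=
    (L ×ˢ Finset.univ).filter fun y => y.2 ≠ value h (ext y.1) (v y.1) with hP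
  have hPcard : P.card = L.card * (k - 1) := by
    have h1 : P = L.biUnion fun I =>
        (Finset.univ.filter fun a : Fin k => a ≠ value h (ext I) (v I)).image fun a => (I, a) := by
      ext ⟨I, a⟩
      simp only [hP, Finset.mem_filter, Finset.mem_product, Finset.mem_univ, and_true,
        Finset.mem_biUnion, Finset.mem_image, true_and, Prod.mk.injEq]
      constructor
      · rintro ⟨h2, h3⟩
        exact ⟨I, h2, a, h3, rfl, rfl⟩
      · rintro ⟨I', h2, a', h3, rfl, rfl⟩
        exact ⟨h2, h3⟩
    rw [h1, Finset.card_biUnion]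
    · have h2 : ∀ I ∈ L, ((Finset.univ.filter fun a : Fin k => a ≠ value h (ext I) (v I)).image
          fun a => (I, a)).card = k - 1 := by
        intro I _
        rw [Finset.card_image_of_injective _ (fun a b hab => (Prod.mk.inj hab).2),
          Finset.filter_ne', Finset.card_erase_of_mem (Finset.mem_univ _), Finset.card_univ,
          Fintype.card_fin]
      rw [Finset.sum_congr rfl h2, Finset.sum_const, smul_eq_mul]
    · intro I _ J _ hIJ
      rw [Function.onFun, Finset.disjoint_left]
      rintro ⟨I', a⟩ h2 h3
      rw [Finset.mem_image] at h2 h3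
      obtain ⟨_, _, h4⟩ := h2
      obtain ⟨_, _, h5⟩ := h3
      exact hIJ ((Prod.mk.inj h4).1.trans (Prod.mk.inj h5).1.symm)
  -- the map
  set Φ : Inp h k × Fin k → Inp h k := fun y =>
    fun x => Function.update (ext y.1) (cell h (ext y.1) (v y.1)) y.2 x.1 with hΦ
  have hext : ∀ y ∈ P, ext (Φ y) = Function.update (ext y.1) (cell h (ext y.1) (v y.1)) y.2 := by
    rintro ⟨I, a⟩ hy
    have hI : I ∈ L := (Finset.mem_product.mp (Finset.mem_filter.mp hy).1).1
    funext x
    by_cases hx : Valid h x
    · exact ext_valid _ ⟨x, hx⟩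
    · rw [ext_invalid _ hx, Function.update_of_ne, ext_invalid _ hx]
      rintro rfl
      exact hx (valid_cell _ (hv I hI).1)
  have hch : ∀ y ∈ P, cell h (ext (Φ y)) (v y.1) = cell h (ext y.1) (v y.1) ∧
      (v y.1, value h (ext y.1) (v y.1)) ∈ early B h p (ext (Φ y)) := by
    rintro ⟨I, a⟩ hy
    have hI : I ∈ L := (Finset.mem_product.mp (Finset.mem_filter.mp hy).1).1
    obtain ⟨h1, t, h2, h3⟩ := hv I hI
    have h4 : (blind B h (ext I)).ncard ≤ p :=
      ((Finset.mem_filter.mp (Finset.mem_filter.mp hI).1).2).2.1
    exact change h1 h2 h3 (Finset.mem_filter.mp hy).2 (hext _ hy) h4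
  rw [← hPcard]
  have hfib : ∀ J ∈ (Finset.univ : Finset (Inp h k)), (P.filter fun y => Φ y = J).card ≤ p + 2 := by
    intro J _
    have h1 := early_card B h p (ext J)
    have h2 : (P.filter fun y => Φ y = J).card ≤ (h1.1.toFinset).card := by
      refine Finset.card_le_card_of_injOn (fun y => (v y.1, value h (ext y.1) (v y.1))) ?_ ?_
      · intro y hy
        have hy' := Finset.mem_filter.mp (Finset.mem_coe.mp hy)
        simp only [Set.Finite.coe_toFinset]
        have := (hch y hy'.1).2
        rw [hy'.2] at this
        exact this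
      · rintro ⟨I, a⟩ hy ⟨I2, a2⟩ hy2 heq
        have hy' := Finset.mem_filter.mp (Finset.mem_coe.mp hy)
        have hy2' := Finset.mem_filter.mp (Finset.mem_coe.mp hy2)
        simp only [Prod.mk.injEq] at heq
        obtain ⟨e1, e2⟩ := heq
        have t1 := (hch _ hy'.1).1
        have t2 := (hch _ hy2'.1).1
        rw [hy'.2] at t1
        rw [hy2'.2] at t2
        simp only at t1 t2
        have x1 := hext _ hy'.1
        have x2 := hext _ hy2'.1
        rw [hy'.2] at x1
        rw [hy2'.2] at x2
        simp only at x1 x2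
        have y1 : ext I = Function.update (ext J) (cell h (ext J) (v I))
            (value h (ext I) (v I)) := by
          rw [t1, value_eq, x1, Function.update_idem, Function.update_eq_self]
        have y2 : ext I2 = Function.update (ext J) (cell h (ext J) (v I2))
            (value h (ext I2) (v I2)) := by
          rw [t2, value_eq, x2, Function.update_idem, Function.update_eq_self]
        have y3 : I = I2 := ext_inj (by rw [y1, y2, e2, e1])
        subst y3
        have z1 : a = ext J (cell h (ext I) (v I)) := by rw [x1, Function.update_self]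
        have z2 : a2 = ext J (cell h (ext I) (v I)) := by rw [x2, Function.update_self]
        rw [z1, z2]
    refine h2.trans ?_
    rw [← Set.ncard_eq_toFinset_card _ h1.1]
    exact h1.2
  have h3 := Finset.card_le_mul_card_image_of_maps_to (s := P) (t := Finset.univ) (f := Φ)
    (fun _ _ => Finset.mem_univ _) (p + 2) hfib
  rwa [Finset.card_univ] at h3

end Pool.Agent.V8H11.TE
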