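import Pool.Agent.V8H11.TE.Inj
import Pool.Agent.V8H11.TE.Lucky

/-!
# The lower bound
-/

set_option autoImplicit false

namespace Pool.Agent.V8H11.TE

variable {k : ℕ} {S : Type}

theorem exists_last {P : ℕ → Prop} {T : ℕ} (h : ∃ r < T, P r) :
    ∃ r < T, P r ∧ ∀ u, r < u → u < T → ¬ P u := by
  induction T with
  | zero => obtain ⟨r, hr, _⟩ := h; omega
  | succ T ih =>
    by_cases hT : P T
    · exact ⟨T, by omega, hT, fun u h1 h2 => by omega⟩
    · obtain ⟨r, hr, hP⟩ := h
      have hrT : r ≠ T := fun h => hT (h ▸ hP)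
      obtain ⟨r', h1, h2, h3⟩ := ih ⟨r, by omega, hP⟩
      refine ⟨r', by omega, h2, fun u h4 h5 => ?_⟩
      rcases Nat.lt_succ_iff_lt_or_eq.mp h5 with h6 | h6
      · exact h3 u h4 h6
      · rw [h6]; exact hT

theorem need_at {B : Prog k S} {h q : ℕ} {f : Var k → Fin k} {τ : ℕ} {v : List Bool}
    (hv : v.length < h) (hn : Need h f (ins B f) τ v) (hq : Tame B h q f)
    (hL : ¬ Lucky B h f) :
    ∃ m T, m ≤ q ∧ At B h (run B f B.start τ) f v m T := by
  classical
  obtain ⟨T', hT', hnm, hno⟩ := hn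
  have hins : ∀ u, ins B f (τ + u) = B.instr (run B f (run B f B.start τ) u) := fun u => by
    unfold ins
    rw [run_add]
  have hex : ∃ T, Names (B.instr (run B f (run B f B.start τ) T)) v (value h f v) := by
    refine ⟨T' - τ, ?_⟩
    rw [← hins, show τ + (T' - τ) = T' by omega]
    exact hnm
  have hle : Nat.find hex ≤ T' - τ := by
    apply Nat.find_min' hex
    rw [← hins, show τ + (T' - τ) = T' by omega]
    exact hnm
  have hwin : ∀ u, τ ≤ u → u < τ + Nat.find hex → ins B f u ≠ .query (cell h f v) ∧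
      ¬ Names (ins B f u) v (value h f v) := fun u hu1 hu2 => ⟨hno u hu1 (by omega), by
    have h2 := Nat.find_min hex (m := u - τ) (by omega)
    rw [← hins, show τ + (u - τ) = u by omega] at h2
    exact h2⟩
  have hright : Names (ins B f (τ + Nat.find hex)) v (value h f v) := by
    rw [hins]; exact Nat.find_spec hex
  refine ⟨_, Nat.find hex, ?_, Nat.find_spec hex, fun u hu => ⟨Nat.find_min hex hu, ?_⟩, rfl⟩
  · -- the value of `v` was read before
    have hread : ∃ r < τ + Nat.find hex,
        (ins B f r = .query (cell h f v) ∨ Names (ins B f r) v (value h f v)) := by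
      by_contra hcon
      push Not at hcon
      exact hL ⟨τ + Nat.find hex, v, hv, hright, fun u hu => (hcon u hu).1⟩
    obtain ⟨r, hr, hev, hlast⟩ := exists_last hread
    have hrτ : r < τ := by
      by_contra hge
      rcases hev with h | h
      · exact (hwin r (by omega) hr).1 h
      · exact (hwin r (by omega) hr).2 h
    have h1 := hq v hv r (τ + Nat.find hex) hr hev hright fun u hu1 hu2 => by
      have := hlast u hu1 hu2
      push Not at this
      exact this
    have h2 : {c | ∃ u < Nat.find hex, Names (B.instr (run B f (run B f B.start τ) u)) v c} ⊆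
        {c | ∃ u, r < u ∧ u < τ + Nat.find hex ∧ Names (ins B f u) v c} := by
      rintro c ⟨u, hu, hc⟩
      exact ⟨τ + u, by omega, by omega, by rw [hins]; exact hc⟩
    exact (Set.ncard_le_ncard h2 (Set.toFinite _)).trans h1
  · rw [← hins]
    exact hno (τ + u) (by omega) (by omega)

theorem in_class {B : Prog k S} {h q : ℕ} (hh : 1 ≤ h) {f : Var k → Fin k}
    (hcor : ∃ t, ins B f t = .output (value h f []))
    (hq : Tame B h q f) (hL : ¬ Lucky B h f) :
    ∃ (s : S) (l : List Bool) (d : Fin h → Fin h) (m : Fin h → Fin (q + 1)), l.length + 1 = h ∧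
      Cls B h s (nodes h l d) (fun i => (m i).val) f := by
  obtain ⟨T, hT⟩ := hcor
  obtain ⟨τ, l, hl, hnl, hns⟩ := critical (h := h) hh (f := f)
    (i := ins B f) (T := T) (by
      rw [hT]; exact ⟨rfl, rfl⟩) (by
      rintro v hv ⟨T1, _, h2, h3⟩
      exact hL ⟨T1, v, hv, h2, fun u hu => h3 u (Nat.zero_le _) hu⟩)
  have hex : ∀ i : Fin h, ∃ d : Fin h, (i.val + 1 < h →
      (List.replicate d.val false ++ sib l i.val).length < h ∧
        Need h f (ins B f) τ (List.replicate d.val false ++ sib l i.val)) := by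
    intro i
    by_cases hi : i.val + 1 < h
    · obtain ⟨d, hd, h1, h2⟩ := hns i.val (by omega)
      exact ⟨⟨d, hd⟩, fun _ => ⟨h1, h2⟩⟩
    · exact ⟨i, fun h => absurd h hi⟩
  choose d hd using hex
  have hnodes : ∀ i, (nodes h l d i).length < h ∧ Need h f (ins B f) τ (nodes h l d i) := by
    intro i
    unfold nodes
    split_ifs with hi
    · exact ⟨by omega, hnl⟩
    · exact hd i (by omega)
  have hex2 : ∀ i, ∃ m : Fin (q + 1), ∃ T, At B h (run B f B.start τ) f (nodes h l d i) m.val T := by
    intro i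
    obtain ⟨m, T, h1, h2⟩ := need_at (hnodes i).1 (hnodes i).2 hq hL
    exact ⟨⟨m, by omega⟩, T, h2⟩
  choose m hm using hex2
  exact ⟨run B f B.start τ, l, d, m, hl, fun i => (hnodes i).1, hm⟩

open Classical in
theorem unlucky_card [NeZero k] [Fintype S] (B : Prog k S) {h p q : ℕ} (hh : 1 ≤ h) :
    ((good B h p q).filter fun I => ¬ Lucky B h (ext I)).card * k ^ h ≤
      Fintype.card S * (2 * h * (q + 1)) ^ h * Fintype.card (Inp h k) := by
  set Par := S × List.Vector Bool (h - 1) × (Fin h → Fin h) × (Fin h → Fin (q + 1)) with hPar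
  set C : Par → Finset (Inp h k) := fun p => Finset.univ.filter fun I : Inp h k =>
    Cls B h p.1 (nodes h p.2.1.val p.2.2.1) (fun i => (p.2.2.2 i).val) (ext I) with hC
  have h1 : ((good B h p q).filter fun I => ¬ Lucky B h (ext I)) ⊆
      (Finset.univ : Finset Par).biUnion C := by
    intro I hI
    obtain ⟨h2, h3⟩ := Finset.mem_filter.mp hI
    obtain ⟨h4, -, h5⟩ := (Finset.mem_filter.mp h2).2
    obtain ⟨s, l, d, m, hl, hc⟩ := in_class hh h4 h5 h3
    rw [Finset.mem_biUnion]
    refine ⟨(s, ⟨l, by omega⟩, d, m), Finset.mem_univ _, ?_⟩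
    rw [hC]
    exact Finset.mem_filter.mpr ⟨Finset.mem_univ _, hc⟩
  have h2 : ∀ p : Par, (C p).card * k ^ h ≤ Fintype.card (Inp h k) := by
    rintro ⟨s, l, d, m⟩
    exact cls_card (fun i j hij => nodes_antichain (by rw [l.2]; omega) d hij) B s _
  have h3 : Fintype.card Par ≤ Fintype.card S * (2 * h * (q + 1)) ^ h := by
    change Fintype.card (S × List.Vector Bool (h - 1) × (Fin h → Fin h) ×
      (Fin h → Fin (q + 1))) ≤ _
    rw [Fintype.card_prod, Fintype.card_prod, Fintype.card_prod, card_vector,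
      Fintype.card_bool, Fintype.card_fun, Fintype.card_fun, Fintype.card_fin, Fintype.card_fin]
    apply Nat.mul_le_mul_left
    rw [mul_assoc 2 h, mul_pow 2, mul_pow h]
    exact Nat.mul_le_mul_right _ (Nat.pow_le_pow_right (by norm_num) (by omega))
  calc ((good B h p q).filter fun I => ¬ Lucky B h (ext I)).card * k ^ h
      ≤ ((Finset.univ : Finset Par).biUnion C).card * k ^ h :=
        Nat.mul_le_mul_right _ (Finset.card_le_card h1)
    _ ≤ (∑ p : Par, (C p).card) * k ^ h := Nat.mul_le_mul_right _ Finset.card_biUnion_le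
    _ = ∑ p : Par, (C p).card * k ^ h := by rw [Finset.sum_mul]
    _ ≤ ∑ _p : Par, Fintype.card (Inp h k) := Finset.sum_le_sum fun p _ => h2 p
    _ = Fintype.card Par * Fintype.card (Inp h k) := by
        rw [Finset.sum_const, Finset.card_univ, smul_eq_mul]
    _ ≤ _ := Nat.mul_le_mul_right _ h3

/-- The lower bound. -/
theorem main [NeZero k] [Fintype S] (B : Prog k S) {h p q : ℕ} (hh : 1 ≤ h) (hk : 2 ≤ k) :
    ((good B h p q).card : ℝ) ≤ (Fintype.card S * (2 * h * (q + 1) / k : ℝ) ^ h +
      (p + 2) / (k - 1)) * Fintype.card (Inp h k) := by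
  classical
  have h1 := lucky_card B h p q
  have h2 := unlucky_card B (p := p) (q := q) hh
  have h3 : (good B h p q).card = ((good B h p q).filter fun I => Lucky B h (ext I)).card +
      ((good B h p q).filter fun I => ¬ Lucky B h (ext I)).card :=
    (Finset.card_filter_add_card_filter_not _).symm
  set x := ((good B h p q).filter fun I => Lucky B h (ext I)).card
  set y := ((good B h p q).filter fun I => ¬ Lucky B h (ext I)).card
  set N := Fintype.card (Inp h k)
  have hk1 : (0 : ℝ) < (k : ℝ) - 1 := by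
    have : (2 : ℝ) ≤ k := by exact_mod_cast hk
    linarith
  have hk0 : (0 : ℝ) < k := by linarith
  have h4 : (x : ℝ) ≤ (p + 2) / (k - 1) * N := by
    have h5 : (x : ℝ) * ((k : ℝ) - 1) ≤ (p + 2) * N := by
      have := (Nat.cast_le (α := ℝ)).mpr h1
      rw [Nat.cast_mul, Nat.cast_sub (by omega)] at this
      push_cast at this
      exact this
    rw [div_mul_eq_mul_div, le_div_iff₀ hk1]
    exact h5
  have h6 : (y : ℝ) ≤ Fintype.card S * (2 * h * (q + 1) / k : ℝ) ^ h * N := by
    have h7 : (y : ℝ) * (k : ℝ) ^ h ≤ Fintype.card S * (2 * h * (q + 1)) ^ h * N := by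
      exact_mod_cast h2
    rw [div_pow, ← mul_div_assoc, div_mul_eq_mul_div, le_div_iff₀ (by positivity)]
    exact h7
  rw [h3]
  push_cast
  rw [add_mul]
  linarith

end Pool.Agent.V8H11.TE
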