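import Pool.Agent.V8H11.TE.Main

/-!
# Programs of polynomial size for tree evaluation
-/

set_option autoImplicit false

namespace Pool.Agent.V8H11.TE

/-- Trees with `log k` levels and programs with `k ^ C` states. -/
theorem poly {k : ℕ} [NeZero k] {S : Type} [Fintype S] (B : Prog k S) {C p q : ℕ} (hk : 2 ≤ k)
    (hS : Fintype.card S ≤ k ^ C) (hq : 2 ^ (C + 2) * Nat.log 2 k * (q + 1) ≤ k) :
    ((good B (Nat.log 2 k) p q).card : ℝ) ≤ (2 ^ (C + 1) / k + (p + 2) / (k - 1)) *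
      Fintype.card (Inp (Nat.log 2 k) k) := by
  set h := Nat.log 2 k with hh
  have hh1 : 1 ≤ h := Nat.log_pos (by norm_num) hk
  have hk2 : k < 2 ^ (h + 1) := Nat.lt_pow_succ_log_self (by norm_num) k
  have hk0 : (0 : ℝ) < k := by exact_mod_cast (by omega : 0 < k)
  refine (main B (p := p) (q := q) hh1 hk).trans ?_
  refine mul_le_mul_of_nonneg_right (add_le_add_left ?_ _) (Nat.cast_nonneg _)
  have h1 : (2 * h * (q + 1) / k : ℝ) ≤ 1 / 2 ^ (C + 1) := by
    have h2 : (2 : ℝ) ^ (C + 2) * h * (q + 1) ≤ k := by exact_mod_cast hq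
    rw [div_le_div_iff₀ hk0 (by positivity)]
    calc 2 * (h : ℝ) * (q + 1) * 2 ^ (C + 1) = 2 ^ (C + 2) * h * (q + 1) := by ring
      _ ≤ 1 * k := by linarith
  have h3 : (2 * h * (q + 1) / k : ℝ) ^ h ≤ (1 / 2 ^ (C + 1)) ^ h :=
    pow_le_pow_left₀ (by positivity) h1 h
  have h4 : (Fintype.card S : ℝ) ≤ 2 ^ (C * (h + 1)) := by
    have h5 : Fintype.card S ≤ 2 ^ (C * (h + 1)) := by
      calc Fintype.card S ≤ k ^ C := hS
        _ ≤ (2 ^ (h + 1)) ^ C := Nat.pow_le_pow_left hk2.le C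
        _ = 2 ^ (C * (h + 1)) := by rw [← pow_mul, mul_comm]
    exact_mod_cast h5
  have h6 : (k : ℝ) ≤ 2 ^ (h + 1) := by exact_mod_cast hk2.le
  calc (Fintype.card S : ℝ) * (2 * h * (q + 1) / k : ℝ) ^ h
      ≤ 2 ^ (C * (h + 1)) * (1 / 2 ^ (C + 1)) ^ h :=
        mul_le_mul h4 h3 (by positivity) (by positivity)
    _ = 2 ^ C / 2 ^ h := by
        rw [one_div, inv_pow, ← pow_mul, ← div_eq_mul_inv,
          div_eq_div_iff (by positivity) (by positivity), ← pow_add, ← pow_add]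
        congr 1
        ring
    _ ≤ 2 ^ (C + 1) / k := by
        rw [div_le_div_iff₀ (by positivity) hk0]
        calc (2 : ℝ) ^ C * k ≤ 2 ^ C * 2 ^ (h + 1) := mul_le_mul_of_nonneg_left h6 (by positivity)
          _ = 2 ^ (C + 1) * 2 ^ h := by ring

end Pool.Agent.V8H11.TE
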